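import Mathlib

/-!
# Every bipartite graph with at least two vertices is chromatically related to `K₂`

All containments are as induced subgraphs.
-/

namespace Pool.Agent.Results.MP_fbe9f6_co.BipartiteRelated

open Finset

/-- `c` is an `F`-free colouring of `H`: no colour class contains an induced copy of `F`. -/
def IsFreeColoring {W U κ : Type*} (H : SimpleGraph W) (F : SimpleGraph U) (c : W → κ) : Prop :=
  ∀ i : κ, IsEmpty (F ↪g H.induce {v | c v = i})

/-- `χ(H : -F) = l`: the number `l` is the least `k` such that `H` has an `F`-free colouring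
with `k` colours. -/
def FreeChromaticNumberEq {W U : Type*} (H : SimpleGraph W) (F : SimpleGraph U) (l : ℕ) : Prop :=
  IsLeast {k : ℕ | ∃ c : W → Fin k, IsFreeColoring H F c} l

/-- `F` and `G` are chromatically related: for every `l ≥ 2` some finite graph `H` has
`χ(H : -F) = χ(H : -G) = l`. -/
def ChromaticallyRelated {U V : Type*} (F : SimpleGraph U) (G : SimpleGraph V) : Prop :=
  ∀ l : ℕ, 2 ≤ l → ∃ (W : Type) (_ : Finite W) (H : SimpleGraph W),
    FreeChromaticNumberEq H F l ∧ FreeChromaticNumberEq H G l

/-- The complete graph on two vertices. -/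
abbrev K2 : SimpleGraph (Fin 2) := ⊤

/-- A `K₂`-free colouring is the same as a proper colouring. -/
theorem isFreeColoring_K2_iff {W κ : Type*} (H : SimpleGraph W) (c : W → κ) :
    IsFreeColoring H K2 c ↔ ∀ u v, H.Adj u v → c u ≠ c v := by
  constructor
  · intro h u v huv hc
    refine (h (c u)).false ⟨⟨![⟨u, rfl⟩, ⟨v, hc.symm⟩], ?_⟩, ?_⟩
    · intro a b hab
      have hne : u ≠ v := huv.ne
      fin_cases a <;> fin_cases b <;> simp_all
    · intro a b
      have h' := huv.symm
      have key : ∀ a b : Fin 2, H.Adj (![u, v] a) (![u, v] b) ↔ a ≠ b := by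
        intro a b
        fin_cases a <;> fin_cases b <;> simp [huv, h']
      have e : ∀ a : Fin 2, ((![(⟨u, rfl⟩ : {w | c w = c u}), ⟨v, hc.symm⟩] a :
          {w | c w = c u}) : W) = ![u, v] a := by
        intro a
        fin_cases a <;> rfl
      change H.Adj ((![(⟨u, rfl⟩ : {w | c w = c u}), ⟨v, hc.symm⟩] a : {w | c w = c u}) : W)
        ((![(⟨u, rfl⟩ : {w | c w = c u}), ⟨v, hc.symm⟩] b : {w | c w = c u}) : W) ↔ _
      rw [e a, e b, key a b, SimpleGraph.top_adj]
  · intro h i
    refine ⟨fun f => ?_⟩
    have h01 : (H.induce {v | c v = i}).Adj (f 0) (f 1) := by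
      rw [f.map_adj_iff]; simp
    have h01' : H.Adj (f 0).1 (f 1).1 := h01
    exact h _ _ h01' (((f 0).2 : c (f 0).1 = i).trans ((f 1).2 : c (f 1).1 = i).symm)

/-- Sanity check: `χ(H : -K₂)` is the usual chromatic number. -/
theorem freeChromaticNumberEq_K2_iff {W : Type*} (H : SimpleGraph W) (l : ℕ) :
    FreeChromaticNumberEq H K2 l ↔ H.chromaticNumber = l := by
  have key : ∀ k : ℕ, (∃ c : W → Fin k, IsFreeColoring H K2 c) ↔ H.Colorable k := by
    intro k
    constructor
    · rintro ⟨c, hc⟩
      exact ⟨SimpleGraph.Coloring.mk c (fun {u v} huv => (isFreeColoring_K2_iff H c).1 hc u v huv)⟩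
    · rintro ⟨c⟩
      exact ⟨c, (isFreeColoring_K2_iff H c).2 fun u v huv => c.valid huv⟩
  unfold FreeChromaticNumberEq
  simp only [key]
  constructor
  · rintro ⟨h1, h2⟩
    refine le_antisymm (SimpleGraph.chromaticNumber_le_iff_colorable.2 h1) ?_
    by_contra hlt
    rw [not_le] at hlt
    obtain ⟨k, hk⟩ := ENat.ne_top_iff_exists.1 (ne_top_of_lt hlt)
    rw [← hk] at hlt
    have hkl : k < l := by exact_mod_cast hlt
    have : H.Colorable k := SimpleGraph.chromaticNumber_le_iff_colorable.1 hk.symm.le
    have := h2 this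
    omega
  · intro h
    refine ⟨SimpleGraph.chromaticNumber_le_iff_colorable.1 h.le, ?_⟩
    intro k hk
    have := SimpleGraph.chromaticNumber_le_iff_colorable.2 hk
    rw [h] at this
    exact_mod_cast this

/-- A polynomial is eventually smaller than `2 ^ m`. -/
theorem exists_large (r d : ℕ) : ∃ m : ℕ, 1 ≤ m ∧ r * ∑ k ∈ range d, m.choose k < 2 ^ m := by
  have h := tendsto_pow_const_div_const_pow_of_one_lt d (r := (2 : ℝ)) (by norm_num)
  have hpos : (0 : ℝ) < 1 / ((r : ℝ) * d + 1) := by positivity
  have hev := (h.eventually (gt_mem_nhds hpos)).and (Filter.eventually_ge_atTop 1)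
  obtain ⟨m, hm, hm1⟩ := hev.exists
  refine ⟨m, hm1, ?_⟩
  have h2 : (0 : ℝ) < 2 ^ m := by positivity
  rw [div_lt_div_iff₀ h2 (by positivity)] at hm
  have h3 : ∑ k ∈ range d, m.choose k ≤ d * m ^ d := by
    calc ∑ k ∈ range d, m.choose k ≤ ∑ _k ∈ range d, m ^ d := by
          refine sum_le_sum fun k hk => ?_
          exact (Nat.choose_le_pow m k).trans
            (Nat.pow_le_pow_right hm1 (mem_range.1 hk).le)
      _ = d * m ^ d := by simp
  have h4 : r * (d * m ^ d) < 2 ^ m := by
    have h5 : ((r * (d * m ^ d) : ℕ) : ℝ) < ((2 ^ m : ℕ) : ℝ) := by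
      push_cast
      have h6 : (0 : ℝ) ≤ (m : ℝ) ^ d := by positivity
      have h7 : (m : ℝ) ^ d * ((r : ℝ) * d + 1) < 2 ^ m := by linarith
      nlinarith
    exact_mod_cast h5
  exact lt_of_le_of_lt (Nat.mul_le_mul_left r h3) h4

/-- A family of subsets of `W` of density at least `1 / r` shatters a subset of size at least `d`
of every set `A` whose size `m` is large. -/
theorem exists_shatter {W : Type*} [Fintype W] [DecidableEq W] (r d m : ℕ)
    (hm : r * ∑ k ∈ range d, m.choose k < 2 ^ m) (A : Finset W) (hA : A.card = m)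
    (𝒜 : Finset (Finset W)) (h𝒜 : 2 ^ Fintype.card W ≤ r * 𝒜.card) :
    ∃ s ⊆ A, d ≤ s.card ∧ 𝒜.Shatters s := by
  classical
  by_contra hcon
  push Not at hcon
  set T : Finset (Finset W) := 𝒜.image (fun S => A ∩ S) with hT
  -- number of traces
  have h1 : 𝒜.card ≤ 2 ^ (Fintype.card W - m) * T.card := by
    refine card_le_mul_card_image 𝒜 _ ?_
    intro t _
    have : (({S ∈ 𝒜 | A ∩ S = t} : Finset (Finset W))).card ≤ (Aᶜ.powerset).card := by
      refine card_le_card_of_injOn (fun S => S \ A) ?_ ?_
      · intro S _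
        simp only [coe_powerset, Set.mem_preimage, Set.mem_powerset_iff, coe_subset]
        intro x hx
        rw [mem_sdiff] at hx
        rw [mem_compl]
        exact hx.2
      · intro S hS S' hS' hSS
        simp only [coe_filter, Set.mem_ofPred_eq] at hS hS'
        have e1 : S = (A ∩ S) ∪ (S \ A) := by
          ext x; simp only [mem_union, mem_inter, mem_sdiff]; tauto
        have e2 : S' = (A ∩ S') ∪ (S' \ A) := by
          ext x; simp only [mem_union, mem_inter, mem_sdiff]; tauto
        have hSS' : S \ A = S' \ A := hSS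
        rw [e1, e2, hS.2, hS'.2, hSS']
    rw [card_powerset, card_compl, hA] at this
    exact this
  have hmW : m ≤ Fintype.card W := by rw [← hA]; exact card_le_univ A
  have h2 : 2 ^ m ≤ r * T.card := by
    have h3 : 2 ^ Fintype.card W = 2 ^ (Fintype.card W - m) * 2 ^ m := by
      rw [← pow_add]; congr 1; omega
    have h4 : 2 ^ (Fintype.card W - m) * 2 ^ m ≤ 2 ^ (Fintype.card W - m) * (r * T.card) := by
      calc 2 ^ (Fintype.card W - m) * 2 ^ m = 2 ^ Fintype.card W := h3.symm
        _ ≤ r * 𝒜.card := h𝒜
        _ ≤ r * (2 ^ (Fintype.card W - m) * T.card) := Nat.mul_le_mul_left r h1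
        _ = 2 ^ (Fintype.card W - m) * (r * T.card) := by ring
    exact Nat.le_of_mul_le_mul_left h4 (by positivity)
  -- Sauer-Shelah
  have h5 : T.card ≤ T.shatterer.card := card_le_card_shatterer T
  have h6 : T.shatterer ⊆ (range d).biUnion (fun k => A.powersetCard k) := by
    intro s hs
    rw [mem_shatterer] at hs
    have hsA : s ⊆ A := by
      obtain ⟨u, hu, hsu⟩ := hs.exists_superset
      rw [hT, mem_image] at hu
      obtain ⟨S, _, rfl⟩ := hu
      exact hsu.trans inter_subset_left
    have hs𝒜 : 𝒜.Shatters s := by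
      intro t ht
      obtain ⟨u, hu, hut⟩ := hs ht
      rw [hT, mem_image] at hu
      obtain ⟨S, hS, rfl⟩ := hu
      refine ⟨S, hS, ?_⟩
      rw [← hut, ← inter_assoc, inter_eq_left.2 hsA]
    have hcard : s.card < d := by
      by_contra hle
      exact hcon s hsA (not_lt.1 hle) hs𝒜
    rw [mem_biUnion]
    exact ⟨s.card, mem_range.2 hcard, mem_powersetCard.2 ⟨hsA, rfl⟩⟩
  have h7 : T.shatterer.card ≤ ∑ k ∈ range d, m.choose k := by
    refine (card_le_card h6).trans (card_biUnion_le.trans ?_)
    simp only [card_powersetCard, hA]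
    exact le_rfl
  have h8 : 2 ^ m ≤ r * ∑ k ∈ range d, m.choose k :=
    h2.trans (Nat.mul_le_mul_left r (h5.trans h7))
  omega

/-- Add to `H` one new vertex for each set `S` of vertices of `H`, adjacent exactly to the
members of `S`. -/
def stepGraph {W : Type*} (H : SimpleGraph W) : SimpleGraph (W ⊕ Finset W) where
  Adj a b := match a, b with
    | Sum.inl u, Sum.inl v => H.Adj u v
    | Sum.inl u, Sum.inr S => u ∈ S
    | Sum.inr S, Sum.inl u => u ∈ S
    | Sum.inr _, Sum.inr _ => False
  symm := ⟨by
    rintro (u | S) (v | S') h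
    · exact H.symm.symm _ _ h
    · exact h
    · exact h
    · exact h⟩
  loopless := ⟨by
    rintro (u | S) h
    · exact H.loopless.irrefl u h
    · exact h⟩

/-- The main recursion. -/
theorem recursion {V : Type*} [Fintype V] (G : SimpleGraph V) (κ : V → Bool)
    (hκ : ∀ u v, G.Adj u v → κ u ≠ κ v) (r m : ℕ)
    (hm : r * ∑ k ∈ range (2 * Fintype.card V), m.choose k < 2 ^ m) (hr : 1 ≤ r) (j : ℕ) :
    ∃ (W : Type) (_ : Fintype W) (H : SimpleGraph W), r * m ≤ 2 ^ Fintype.card W ∧
      (∃ c : W → Fin (j + 1), ∀ u v, H.Adj u v → c u ≠ c v) ∧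
      ∀ c : W → Fin r, IsFreeColoring H G c →
        ∃ I : Finset (Fin r), j + 1 ≤ I.card ∧ ∀ i ∈ I, ∃ A : Finset W, A.card = m ∧
          (∀ a ∈ A, c a = i) ∧ ∀ a ∈ A, ∀ b ∈ A, ¬ H.Adj a b := by
  classical
  induction j with
  | zero =>
    refine ⟨Fin (r * m), inferInstance, ⊥, ?_, ⟨fun _ => 0, fun u v h => h.elim⟩, ?_⟩
    · simpa using (Nat.lt_two_pow_self (n := r * m)).le
    · intro c _
      have : ∃ i ∈ (univ : Finset (Fin r)), m ≤ (univ.filter (fun w => c w = i)).card := by
        have : Nonempty (Fin r) := ⟨⟨0, hr⟩⟩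
        refine exists_le_card_fiber_of_mul_le_card_of_maps_to (fun _ _ => mem_univ _)
          univ_nonempty ?_
        simp
      obtain ⟨i, _, hi⟩ := this
      obtain ⟨A, hA, hAm⟩ := exists_subset_card_eq hi
      refine ⟨{i}, by simp, ?_⟩
      intro i' hi'
      rw [mem_singleton] at hi'
      subst hi'
      refine ⟨A, hAm, fun a ha => (mem_filter.1 (hA ha)).2, fun a _ b _ h => h⟩
  | succ j ih =>
    obtain ⟨W, _, H, hcard, ⟨p, hp⟩, hH⟩ := ih
    refine ⟨W ⊕ Finset W, inferInstance, stepGraph H, ?_, ?_, ?_⟩
    · refine hcard.trans (Nat.pow_le_pow_right (by norm_num) ?_)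
      simp
    · refine ⟨Sum.elim (fun w => (p w).castSucc) (fun _ => Fin.last _), ?_⟩
      rintro (u | S) (v | S') h
      · have := hp u v h
        simp only [Sum.elim_inl, ne_eq, Fin.castSucc_inj]
        exact this
      · simp only [Sum.elim_inl, Sum.elim_inr, ne_eq]
        exact (Fin.castSucc_lt_last _).ne
      · simp only [Sum.elim_inl, Sum.elim_inr, ne_eq]
        exact (Fin.castSucc_lt_last _).ne'
      · exact h.elim
    · intro c hc
      have hcW : IsFreeColoring H G (fun w => c (Sum.inl w)) := by
        intro i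
        refine ⟨fun f => (hc i).false ⟨⟨fun v => ⟨Sum.inl (f v).1, (f v).2⟩, ?_⟩, ?_⟩⟩
        · intro a b hab
          have h1 : (Sum.inl (f a).1 : W ⊕ Finset W) = Sum.inl (f b).1 := by
            simpa using hab
          exact f.injective (Subtype.ext (Sum.inl_injective h1))
        · intro a b
          exact f.map_adj_iff
      obtain ⟨I, hI, hIA⟩ := hH _ hcW
      -- the majority colour among the new vertices
      have : ∃ i ∈ (univ : Finset (Fin r)),
          2 ^ Fintype.card W ≤ r * (univ.filter (fun S : Finset W => c (Sum.inr S) = i)).card := by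
        by_contra hcon
        push Not at hcon
        have hsum : ∑ i : Fin r, (univ.filter (fun S : Finset W => c (Sum.inr S) = i)).card
            = 2 ^ Fintype.card W := by
          rw [← card_eq_sum_card_fiberwise (f := fun S : Finset W => c (Sum.inr S))
            (fun _ _ => mem_univ _)]
          simp
        have hlt : ∑ i : Fin r, r * (univ.filter (fun S : Finset W => c (Sum.inr S) = i)).card
            < ∑ _i : Fin r, 2 ^ Fintype.card W := by
          refine sum_lt_sum_of_nonempty ⟨⟨0, hr⟩, mem_univ _⟩ fun i hi => hcon i hi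
        rw [← mul_sum, hsum] at hlt
        simp at hlt
      obtain ⟨i, _, hi⟩ := this
      set 𝒜 : Finset (Finset W) := univ.filter (fun S : Finset W => c (Sum.inr S) = i) with h𝒜
      have hiI : i ∉ I := by
        intro hiI
        obtain ⟨A, hAm, hAc, hAind⟩ := hIA i hiI
        obtain ⟨s, hsA, hsd, hsh⟩ := exists_shatter r (2 * Fintype.card V) m hm A hAm 𝒜 hi
        have hcardle : Fintype.card (V ⊕ V) ≤ Fintype.card s := by
          rw [Fintype.card_sum, Fintype.card_coe]
          omega
        obtain ⟨φ⟩ := Function.Embedding.nonempty_of_card_le hcardle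
        -- sets representing the vertices of the second side
        have hS : ∀ y : V, ∃ S ∈ 𝒜, s ∩ S =
            (univ.filter (fun x : V => G.Adj x y)).image (fun x => (φ (Sum.inl x) : W))
              ∪ {(φ (Sum.inr y) : W)} := by
          intro y
          refine hsh ?_
          intro w hw
          rw [mem_union, mem_image, mem_singleton] at hw
          rcases hw with ⟨x, _, rfl⟩ | rfl
          · exact (φ (Sum.inl x)).2
          · exact (φ (Sum.inr y)).2
        choose S hS𝒜 hSs using hS
        have hmem : ∀ x y : V, (φ (Sum.inl x) : W) ∈ S y ↔ G.Adj x y := by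
          intro x y
          have e1 : (φ (Sum.inl x) : W) ∈ S y ↔ (φ (Sum.inl x) : W) ∈ s ∩ S y := by
            rw [mem_inter]
            exact ⟨fun h => ⟨(φ (Sum.inl x)).2, h⟩, fun h => h.2⟩
          rw [e1, hSs y, mem_union, mem_image, mem_singleton]
          constructor
          · rintro (⟨x', hx', he⟩ | he)
            · have := φ.injective (Subtype.ext he)
              rw [Sum.inl.injEq] at this
              subst this
              exact (mem_filter.1 hx').2
            · have := φ.injective (Subtype.ext he)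
              simp at this
          · intro h
            exact Or.inl ⟨x, mem_filter.2 ⟨mem_univ _, h⟩, rfl⟩
        have hmem2 : ∀ y y' : V, (φ (Sum.inr y) : W) ∈ S y' → y = y' := by
          intro y y' h
          have e1 : (φ (Sum.inr y) : W) ∈ s ∩ S y' := mem_inter.2 ⟨(φ (Sum.inr y)).2, h⟩
          rw [hSs y', mem_union, mem_image, mem_singleton] at e1
          rcases e1 with ⟨x', _, he⟩ | he
          · have := φ.injective (Subtype.ext he)
            simp at this
          · have := φ.injective (Subtype.ext he)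
            simpa using this
        have hmem3 : ∀ y : V, (φ (Sum.inr y) : W) ∈ S y := by
          intro y
          have : (φ (Sum.inr y) : W) ∈ s ∩ S y := by
            rw [hSs y]; simp
          exact (mem_inter.1 this).2
        have hSinj : Function.Injective S := by
          intro y y' h
          exact hmem2 y y' (h ▸ hmem3 y)
        let g : V → W ⊕ Finset W := fun v =>
          if κ v then Sum.inl (φ (Sum.inl v) : W) else Sum.inr (S v)
        have hgc : ∀ v, c (g v) = i := by
          intro v
          by_cases hv : κ v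
          · simp only [g, hv, if_true]
            exact hAc _ (hsA (φ (Sum.inl v)).2)
          · simp only [g, hv]
            exact (mem_filter.1 (hS𝒜 v)).2
        have hginj : Function.Injective g := by
          intro a b hab
          by_cases ha : κ a <;> by_cases hb : κ b <;> simp only [g, ha, hb, if_true] at hab
          · have := φ.injective (Subtype.ext (Sum.inl_injective hab))
            simpa using this
          · simp at hab
          · simp at hab
          · exact hSinj (by simpa using hab)
        have hgadj : ∀ a b, (stepGraph H).Adj (g a) (g b) ↔ G.Adj a b := by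
          intro a b
          by_cases ha : κ a <;> by_cases hb : κ b <;> simp only [g, ha, hb, if_true]
          · constructor
            · intro h
              exact (hAind _ (hsA (φ (Sum.inl a)).2) _ (hsA (φ (Sum.inl b)).2) h).elim
            · intro h
              exact (hκ a b h (by rw [ha, hb])).elim
          · exact hmem a b
          · exact (hmem b a).trans (G.adj_comm b a)
          · constructor
            · intro h
              exact h.elim
            · intro h
              refine (hκ a b h ?_).elim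
              rw [Bool.not_eq_true] at ha hb
              rw [ha, hb]
        refine (hc i).false ⟨⟨fun v => ⟨g v, hgc v⟩, ?_⟩, ?_⟩
        · intro a b hab
          exact hginj (by simpa using hab)
        · intro a b
          exact hgadj a b
      refine ⟨insert i I, ?_, ?_⟩
      · rw [card_insert_of_notMem hiI]
        omega
      · intro i' hi'
        rw [mem_insert] at hi'
        rcases hi' with rfl | hi'
        · have hmle : m ≤ 𝒜.card := by
            by_contra hlt
            push Not at hlt
            have : r * 𝒜.card < r * m := Nat.mul_lt_mul_of_pos_left hlt hr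
            omega
          obtain ⟨B, hB, hBm⟩ := exists_subset_card_eq hmle
          refine ⟨B.map ⟨Sum.inr, Sum.inr_injective⟩, by rw [card_map, hBm], ?_, ?_⟩
          · intro a ha
            rw [mem_map] at ha
            obtain ⟨S, hS, rfl⟩ := ha
            exact (mem_filter.1 (hB hS)).2
          · intro a ha b hb
            rw [mem_map] at ha hb
            obtain ⟨S, _, rfl⟩ := ha
            obtain ⟨S', _, rfl⟩ := hb
            exact fun h => h
        · obtain ⟨A, hAm, hAc, hAind⟩ := hIA i' hi'
          refine ⟨A.map ⟨Sum.inl, Sum.inl_injective⟩, by rw [card_map, hAm], ?_, ?_⟩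
          · intro a ha
            rw [mem_map] at ha
            obtain ⟨w, hw, rfl⟩ := ha
            exact hAc w hw
          · intro a ha b hb
            rw [mem_map] at ha hb
            obtain ⟨w, hw, rfl⟩ := ha
            obtain ⟨w', hw', rfl⟩ := hb
            exact hAind w hw w' hw'

/-- A colouring with fewer colours is a colouring with more colours. -/
theorem IsFreeColoring.castLE {W U : Type*} [Nonempty U] {H : SimpleGraph W} {F : SimpleGraph U}
    {k r : ℕ} {c : W → Fin k} (hc : IsFreeColoring H F c) (hkr : k ≤ r) :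
    IsFreeColoring H F (fun w => Fin.castLE hkr (c w)) := by
  intro i
  refine ⟨fun f => ?_⟩
  obtain ⟨u⟩ := ‹Nonempty U›
  have hi : ∀ v, Fin.castLE hkr (c (f v).1) = i := fun v => (f v).2
  refine (hc (c (f u).1)).false ⟨⟨fun v => ⟨(f v).1, ?_⟩, ?_⟩, ?_⟩
  · have := (hi v).trans (hi u).symm
    exact Fin.castLE_injective hkr this
  · intro a b hab
    exact f.injective (Subtype.ext (by simpa using hab))
  · intro a b
    exact f.map_adj_iff

/-- The case of graphs with at least one edge. -/
theorem related_of_adj {V : Type*} [Fintype V] (G : SimpleGraph V) (hG : G.IsBipartite)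
    {x y : V} (hxy : G.Adj x y) : ChromaticallyRelated G K2 := by
  intro l hl
  have : Nonempty V := ⟨x⟩
  obtain ⟨κ⟩ := hG
  obtain ⟨r, rfl⟩ : ∃ r, l = r + 1 := ⟨l - 1, by omega⟩
  obtain ⟨m, -, hm⟩ := exists_large r (2 * Fintype.card V)
  have hκ : ∀ u v, G.Adj u v → (decide (κ u = 0)) ≠ (decide (κ v = 0)) := by
    intro u v huv
    have h1 := κ.valid huv
    intro h2
    apply h1
    rw [decide_eq_decide] at h2
    have h3 : ∀ a b : Fin 2, (a = 0 ↔ b = 0) → a = b := by decide
    exact h3 _ _ h2
  obtain ⟨W, hW, H, -, ⟨p, hp⟩, hH⟩ := recursion G _ hκ r m hm (by omega) r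
  have hno : ∀ c : W → Fin r, ¬ IsFreeColoring H G c := by
    intro c hc
    obtain ⟨I, hI, -⟩ := hH c hc
    have := card_le_univ I
    rw [Fintype.card_fin] at this
    omega
  have hno' : ∀ k (c : W → Fin k), IsFreeColoring H G c → r + 1 ≤ k := by
    intro k c hc
    by_contra hlt
    exact hno _ (hc.castLE (show k ≤ r by omega))
  have hprop : ∀ k (c : W → Fin k), (∀ u v, H.Adj u v → c u ≠ c v) → IsFreeColoring H G c := by
    intro k c hc i
    refine ⟨fun f => ?_⟩
    have h1 : (H.induce {v | c v = i}).Adj (f x) (f y) := f.map_adj_iff.2 hxy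
    have h2 : H.Adj (f x).1 (f y).1 := h1
    exact hc _ _ h2 (((f x).2 : c (f x).1 = i).trans ((f y).2 : c (f y).1 = i).symm)
  refine ⟨W, inferInstance, H, ⟨⟨p, hprop _ p hp⟩, ?_⟩, ⟨⟨p, ?_⟩, ?_⟩⟩
  · rintro k ⟨c, hc⟩
    exact hno' k c hc
  · exact (isFreeColoring_K2_iff H p).2 hp
  · rintro k ⟨c, hc⟩
    exact hno' k c (hprop k c ((isFreeColoring_K2_iff H c).1 hc))

/-- The case of edgeless graphs. -/
theorem related_of_edgeless {V : Type*} [Fintype V] (G : SimpleGraph V)
    (hV : 2 ≤ Fintype.card V) (hG : ∀ x y, ¬ G.Adj x y) : ChromaticallyRelated G K2 := by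
  classical
  intro l hl
  obtain ⟨m, hm⟩ : ∃ m, Fintype.card V = m + 1 := ⟨Fintype.card V - 1, by omega⟩
  have hm1 : 1 ≤ m := by omega
  let H : SimpleGraph (Fin l × Fin (l * m)) :=
    { Adj := fun a b => a.1 ≠ b.1
      symm := ⟨fun a b h => h.symm⟩
      loopless := ⟨fun a h => h rfl⟩ }
  have hH : ∀ a b, H.Adj a b ↔ a.1 ≠ b.1 := fun a b => Iff.rfl
  have hlm : 0 < l * m := Nat.mul_pos (by omega) hm1
  refine ⟨Fin l × Fin (l * m), inferInstance, H, ⟨?_, ?_⟩, ⟨?_, ?_⟩⟩
  · refine ⟨fun a => ⟨a.2.1 / m, (Nat.div_lt_iff_lt_mul hm1).2 a.2.2⟩, ?_⟩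
    intro i
    refine ⟨fun f => ?_⟩
    have hfst : ∀ v w, (f v).1.1 = (f w).1.1 := by
      intro v w
      by_contra hne
      have h1 : (H.induce _).Adj (f v) (f w) := hne
      exact hG v w (f.map_adj_iff.1 h1)
    have hdiv : ∀ v w, (f v).1.2.1 / m = (f w).1.2.1 / m := by
      intro v w
      have h1 := (f v).2
      have h2 := (f w).2
      have h3 := h1.trans h2.symm
      simpa using h3
    have hinj : Function.Injective
        (fun v => (⟨(f v).1.2.1 % m, Nat.mod_lt _ hm1⟩ : Fin m)) := by
      intro v w hvw
      have h1 : (f v).1.2.1 % m = (f w).1.2.1 % m := by simpa using hvw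
      have h2 : (f v).1.2.1 = (f w).1.2.1 := by
        rw [← Nat.div_add_mod (f v).1.2.1 m, ← Nat.div_add_mod (f w).1.2.1 m, h1, hdiv v w]
      exact f.injective (Subtype.ext (Prod.ext (hfst v w) (Fin.ext h2)))
    have := Fintype.card_le_of_injective _ hinj
    rw [Fintype.card_fin, hm] at this
    omega
  · rintro k ⟨c, hc⟩
    by_contra hlt
    push Not at hlt
    have : ∃ i ∈ (univ : Finset (Fin k)),
        m < (univ.filter (fun a : Fin (l * m) => c (⟨0, by omega⟩, a) = i)).card := by
      refine exists_lt_card_fiber_of_mul_lt_card_of_maps_to (fun _ _ => mem_univ _) ?_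
      rw [card_univ, card_univ, Fintype.card_fin, Fintype.card_fin]
      exact Nat.mul_lt_mul_of_pos_right hlt hm1
    obtain ⟨i, -, hi⟩ := this
    have hcard : Fintype.card V ≤
        Fintype.card (univ.filter (fun a : Fin (l * m) => c (⟨0, by omega⟩, a) = i)) := by
      rw [Fintype.card_coe, hm]
      exact hi
    obtain ⟨φ⟩ := Function.Embedding.nonempty_of_card_le hcard
    refine (hc i).false ⟨⟨fun v => ⟨(⟨0, by omega⟩, (φ v).1), (mem_filter.1 (φ v).2).2⟩, ?_⟩, ?_⟩
    · intro a b hab
      have h1 : (φ a).1 = (φ b).1 := by simpa using hab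
      exact φ.injective (Subtype.ext h1)
    · intro a b
      constructor
      · intro h
        exact (h rfl).elim
      · intro h
        exact (hG a b h).elim
  · refine ⟨fun a => a.1, (isFreeColoring_K2_iff H _).2 fun u v h => h⟩
  · rintro k ⟨c, hc⟩
    rw [isFreeColoring_K2_iff] at hc
    have hinj : Function.Injective (fun i : Fin l => c (i, ⟨0, hlm⟩)) := by
      intro i j hij
      by_contra hne
      exact hc (i, ⟨0, hlm⟩) (j, ⟨0, hlm⟩) hne hij
    have := Fintype.card_le_of_injective _ hinj
    rw [Fintype.card_fin, Fintype.card_fin] at this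
    exact this

/-- Every bipartite graph with at least two vertices is chromatically related to `K₂`. -/
theorem result {V : Type*} [Fintype V] (G : SimpleGraph V) (hV : 2 ≤ Fintype.card V)
    (hG : G.IsBipartite) : ChromaticallyRelated G K2 := by
  by_cases h : ∃ x y, G.Adj x y
  · obtain ⟨x, y, hxy⟩ := h
    exact related_of_adj G hG hxy
  · push Not at h
    exact related_of_edgeless G hV h

end Pool.Agent.Results.MP_fbe9f6_co.BipartiteRelated
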